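import Pool.Agent.MP_b80928_gt.DefsH
import Pool.Agent.MP_b80928_gt.D5.MainH

namespace Pool.Agent.Results.MP_b80928_gt.C1Robust

open Pool.Agent.MP_b80928_gt
open scoped ContDiff

/-- Every smooth embedding of a closed hypersurface `{f = 0}` in standard contact `ℝ^(2n+1)` is
carried, by an ambient isotopy that moves points by at most `δ`, to an embedding with a
`C^1`-neighbourhood that contains no convex hypersurface. -/
theorem result (n : ℕ) (hn : 2 ≤ n) (f : Pt n → ℝ) (hf : Hyp f) (E₀ : Pt n → Pt n)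
    (h₀ : HypEmb f ∞ E₀) (δ : ℝ) (hδ : 0 < δ) :
    ∃ P : ℝ → Pt n → Pt n, SmallIsotopy δ P ∧
      ∃ ε > 0, ∀ E' : Pt n → Pt n, HypEmb f 2 E' → C1Near f ε E' (P 1 ∘ E₀) →
        ¬ConvexIm alpha f E' := by
  obtain ⟨m, rfl⟩ := Nat.exists_eq_add_of_le' hn
  obtain ⟨P, ⟨h1, h2, h3⟩, h⟩ := D5.topH m hf h₀ δ hδ
  exact ⟨P, ⟨h1, h2, fun τ hτ => ⟨(h3 τ hτ).1.2.1, (h3 τ hτ).1.2.2, (h3 τ hτ).2⟩⟩, h⟩

end Pool.Agent.Results.MP_b80928_gt.C1Robust
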